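import Pool.Graph.R_seed8.R660.CF.Tilde
import Pool.Graph.R_seed8.R294.CFCont
import Pool.Graph.R_seed8.R294.CFVal
import Pool.Agent.H16E.Extremal

/-!
# The values of the entropy of slow `(a,b)`-continued fraction maps, and where they are attained

`InP a b` is `(a, b) ∈ 𝒫`, `ft e a b` is the map of `[-1, 1]` of the problem, `lapSet F` is the set
of the maximal intervals on which `F` is monotone, and `lapsI e a b n` is the number of the laps of
the `n`-th iterate.
-/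

set_option autoImplicit false

namespace Pool.Agent.Results.MP_d04ad0_an.ExtremalParameters

open Filter Topology Set Pool.Agent.R660.CF Pool.Agent.R294.CF Pool.Agent.H16E

theorem exists_kappa : ∃ κ : ℝ, κ ^ 3 - κ ^ 2 - 1 = 0 ∧ ∀ x : ℝ, x ^ 3 - x ^ 2 - 1 = 0 → x = κ := by
  have hc : ContinuousOn (fun x : ℝ => x ^ 3 - x ^ 2 - 1) (Icc 1 2) := by fun_prop
  obtain ⟨κ, -, hκ⟩ := intermediate_value_Icc (by norm_num : (1 : ℝ) ≤ 2) hc
    (show (0 : ℝ) ∈ Icc ((fun x : ℝ => x ^ 3 - x ^ 2 - 1) 1) ((fun x : ℝ => x ^ 3 - x ^ 2 - 1) 2) by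
      norm_num)
  have h1 : ∀ x : ℝ, x ^ 3 - x ^ 2 - 1 = 0 → 1 < x := by
    intro x hx
    by_contra hcon
    have h2 : x ^ 2 * (x - 1) = 1 := by linarith
    nlinarith [sq_nonneg x, not_lt.1 hcon, mul_nonneg (sq_nonneg x) (sub_nonneg.2 (not_lt.1 hcon))]
  have hκ' : κ ^ 3 - κ ^ 2 - 1 = 0 := hκ
  refine ⟨κ, hκ', fun x hx => ?_⟩
  have k1 := h1 x hx
  have k2 := h1 κ hκ'
  have h3 : (x - κ) * (x ^ 2 + x * κ + κ ^ 2 - (x + κ)) = 0 := by linarith
  rcases mul_eq_zero.1 h3 with h | h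
  · linarith
  · nlinarith

/-- The polynomial `x^3 - x^2 - 1` has exactly one real root `κ`; there is a function `H` on the
parameter set `𝒫` which gives the topological entropy, i.e. the number of laps of the `n`-th iterate
is finite and `log (number of laps) / n → H (a, b)` for every `(a, b)` in `𝒫` (whichever of the two
values `1`, `-1` is used for the middle branch at its jump `0`), and with `φ = (1 + √5) / 2`:
* the set of the values of `H` on `𝒫` is exactly the interval `[log κ, log φ]`;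
* the least value `log κ` is attained exactly at the `(a, b)` in `𝒫` with `a = 0` or `b = 0`;
* the largest value `log φ` is attained exactly at the `(a, b)` in the square
  `[-1, -1/2] × [1/2, 1]`;
* `H` is continuous on `𝒫`, and `b ↦ H (-1, b)` is continuous and non-decreasing on `[0, 1/2]` and
  maps `[0, 1/2]` onto `[log κ, log φ]`, taking the two end values only at `b = 0` and `b = 1/2`. -/
theorem result : ∃ κ : ℝ, (κ ^ 3 - κ ^ 2 - 1 = 0 ∧ ∀ x : ℝ, x ^ 3 - x ^ 2 - 1 = 0 → x = κ) ∧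
    ∃ H : ℝ × ℝ → ℝ,
      (∀ e a b : ℝ, (e = 1 ∨ e = -1) → InP a b →
        (∀ n : ℕ, (lapSet (ft e a b)^[n]).Finite) ∧
        Tendsto (fun n : ℕ => Real.log (lapsI e a b n) / n) atTop (𝓝 (H (a, b)))) ∧
      H '' {p : ℝ × ℝ | InP p.1 p.2} = Icc (Real.log κ) (Real.log ((1 + √5) / 2)) ∧
      (∀ a b : ℝ, InP a b → (H (a, b) = Real.log κ ↔ a = 0 ∨ b = 0)) ∧
      (∀ a b : ℝ, InP a b → (H (a, b) = Real.log ((1 + √5) / 2) ↔
        a ∈ Icc (-1) (-1 / 2) ∧ b ∈ Icc (1 / 2) 1)) ∧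
      ContinuousOn H {p : ℝ × ℝ | InP p.1 p.2} ∧
      (∀ b ∈ Icc (0 : ℝ) (1 / 2), InP (-1) b) ∧
      ContinuousOn (fun b : ℝ => H (-1, b)) (Icc 0 (1 / 2)) ∧
      MonotoneOn (fun b : ℝ => H (-1, b)) (Icc 0 (1 / 2)) ∧
      (fun b : ℝ => H (-1, b)) '' Icc 0 (1 / 2) =
        Icc (Real.log κ) (Real.log ((1 + √5) / 2)) ∧
      (∀ b ∈ Icc (0 : ℝ) (1 / 2), (H (-1, b) = Real.log κ ↔ b = 0) ∧
        (H (-1, b) = Real.log ((1 + √5) / 2) ↔ b = 1 / 2)) := by
  obtain ⟨κ, hκ, hκ'⟩ := exists_kappa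
  have hκ1 : 1 ≤ κ := by
    by_contra hcon
    have h2 : κ ^ 2 * (κ - 1) = 1 := by linarith
    nlinarith [mul_nonneg (sq_nonneg κ) (sub_nonneg.2 (not_le.1 hcon).le)]
  have hκ3 : κ ^ 3 = κ ^ 2 + 1 := by linarith
  have hP : ∀ b ∈ Icc (0 : ℝ) (1 / 2), InP (-1) b := fun b hb =>
    InP_neg_one hb.1 (by linarith [hb.2])
  have hcont : ContinuousOn (fun b : ℝ => ent (-1) b) (Icc 0 (1 / 2)) := by
    refine ent_continuousOn.comp (f := fun b : ℝ => ((-1 : ℝ), b)) ?_ ?_
    · exact (continuous_const.prodMk continuous_id).continuousOn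
    · intro b hb
      exact hP b hb
  have hmax : ∀ a b : ℝ, InP a b → (ent a b = Real.log ((1 + √5) / 2) ↔
      a ∈ Icc (-1) (-1 / 2) ∧ b ∈ Icc (1 / 2) 1) := fun a b hab => ent_eq_max_iff hab
  have hrange : ∀ a b : ℝ, InP a b → ent a b ∈ Icc (Real.log κ) (Real.log ((1 + √5) / 2)) :=
    fun a b hab => ⟨entropy_ge hab hκ3 hκ1 (ent_spec hab), entropy_le hab (ent_spec hab)⟩
  have e0 : ent (-1) 0 = Real.log κ := ent_g hκ3 hκ1
  have e1 : ent (-1) (1 / 2) = Real.log ((1 + √5) / 2) :=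
    ent_square le_rfl (by norm_num) le_rfl (by norm_num)
  have himage : (fun b : ℝ => ent (-1) b) '' Icc 0 (1 / 2) =
      Icc (Real.log κ) (Real.log ((1 + √5) / 2)) := by
    apply Subset.antisymm
    · rintro _ ⟨b, hb, rfl⟩
      exact hrange _ _ (hP b hb)
    · have h1 := intermediate_value_Icc (by norm_num : (0 : ℝ) ≤ 1 / 2) hcont
      rwa [e0, e1] at h1
  refine ⟨κ, ⟨hκ, hκ'⟩, fun p => ent p.1 p.2, ?_, ?_, ?_, hmax, ent_continuousOn, hP, hcont, ?_,
    himage, ?_⟩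
  · intro e a b _ hab
    refine ⟨fun n => (lapSet_spec hab e n).1, ?_⟩
    rw [entropy_lapsI hab]
    exact ent_spec hab
  · apply Subset.antisymm
    · rintro _ ⟨p, hp, rfl⟩
      exact hrange _ _ hp
    · intro h hh
      rw [← himage] at hh
      obtain ⟨b, hb, hbh⟩ := hh
      exact ⟨(-1, b), hP b hb, hbh⟩
  · intro a b hab
    exact ent_eq_min_iff hκ3 hκ1 hab
  · intro b' hb' b hb hbb
    exact left_b (hP b hb) (hP b' hb') hbb (by norm_num) (by linarith [hb.2])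
  · intro b hb
    refine ⟨?_, ?_⟩
    · show ent (-1) b = Real.log κ ↔ b = 0
      rw [ent_eq_min_iff hκ3 hκ1 (hP b hb)]
      norm_num
    · show ent (-1) b = Real.log ((1 + √5) / 2) ↔ b = 1 / 2
      rw [hmax _ _ (hP b hb)]
      constructor
      · rintro ⟨-, h⟩
        exact le_antisymm hb.2 h.1
      · intro h
        rw [h]
        norm_num

end Pool.Agent.Results.MP_d04ad0_an.ExtremalParameters
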