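import Pool.Graph.R_seed8.R660.CF.Tilde
import Pool.Graph.R_seed8.R294.CFCont
import Pool.Graph.R_seed8.R294.CFVal
import Pool.Agent.H16E.Extremal
import Pool.Agent.H16E.Quant
import Pool.Agent.H16E.Flat2
import Pool.Agent.H16E.LowPoint
import Pool.Agent.H16E.Value2
import Pool.Agent.H16E.EdgeLow

/-!
# How fast the entropy of slow `(a,b)`-continued fraction maps leaves its two extreme values

`InP a b` is `(a, b) ∈ 𝒫`, `ft e a b` is the map of `[-1, 1]` of the problem, `lapSet F` is the set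
of the maximal intervals on which `F` is monotone, and `lapsI e a b n` is the number of the laps of
the `n`-th iterate.
-/

set_option autoImplicit false

namespace Pool.Agent.Results.MP_d04ad0_an.SharpRates

open Filter Topology Set Pool.Agent.R660.CF Pool.Agent.R294.CF Pool.Agent.H16E

theorem exists_kappa : ∃ κ : ℝ, κ ^ 3 - κ ^ 2 - 1 = 0 ∧ ∀ x : ℝ, x ^ 3 - x ^ 2 - 1 = 0 → x = κ := by
  have hc : ContinuousOn (fun x : ℝ => x ^ 3 - x ^ 2 - 1) (Icc 1 2) := by fun_prop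
  obtain ⟨κ, -, hκ⟩ := intermediate_value_Icc (by norm_num : (1 : ℝ) ≤ 2) hc
    (show (0 : ℝ) ∈ Icc ((fun x : ℝ => x ^ 3 - x ^ 2 - 1) 1) ((fun x : ℝ => x ^ 3 - x ^ 2 - 1) 2) by
      norm_num)
  have h1 : ∀ x : ℝ, x ^ 3 - x ^ 2 - 1 = 0 → 1 < x := by
    intro x hx
    by_contra hcon
    have h2 : x ^ 2 * (x - 1) = 1 := by linarith
    nlinarith [sq_nonneg x, not_lt.1 hcon, mul_nonneg (sq_nonneg x) (sub_nonneg.2 (not_lt.1 hcon))]
  have hκ' : κ ^ 3 - κ ^ 2 - 1 = 0 := hκ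
  refine ⟨κ, hκ', fun x hx => ?_⟩
  have k1 := h1 x hx
  have k2 := h1 κ hκ'
  have h3 : (x - κ) * (x ^ 2 + x * κ + κ ^ 2 - (x + κ)) = 0 := by linarith
  rcases mul_eq_zero.1 h3 with h | h
  · linarith
  · nlinarith

theorem log_half {x : ℝ} (h0 : 0 ≤ x) (h1 : x ≤ 1) : x / 2 ≤ Real.log (1 + x) := by
  have h2 := Real.one_sub_inv_le_log_of_pos (show 0 < 1 + x by linarith)
  have h3 : x / 2 ≤ 1 - (1 + x)⁻¹ := by
    have h4 : 1 - (1 + x)⁻¹ = x / (1 + x) := by
      field_simp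
      ring
    rw [h4]
    gcongr
    linarith
  linarith

/-- the golden ratio -/
theorem golden : ∃ g : ℝ, g = (1 + √5) / 2 ∧ g ^ 2 = g + 1 ∧ 8 / 5 < g ∧ g < 81 / 50 := by
  have hs5 : √5 ^ 2 = 5 := Real.sq_sqrt (by norm_num)
  have hs50 : 0 ≤ √5 := Real.sqrt_nonneg _
  refine ⟨_, rfl, by nlinarith, ?_, ?_⟩
  · have : 11 / 5 < √5 := by
      by_contra h
      push Not at h
      nlinarith
    linarith
  · have : √5 < 112 / 50 := by
      by_contra h
      push Not at h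
      nlinarith
    linarith

/-- the upper bound at `(b - 1, b)`, `b = (K-1)/(2K-1)` -/
theorem up_point (M : ℕ) :
    ent (-((M : ℝ) + 3) / (2 * M + 5)) (((M : ℝ) + 2) / (2 * M + 5)) ≤
      Real.log ((1 + √5) / 2) - 1 / (18 * ((1 + √5) / 2) ^ (M + 9)) := by
  obtain ⟨g, hg, hg2, hg3, hg4⟩ := golden
  rw [← hg]
  have hg0 : 0 < g := by linarith
  have hζ2 : (1 / g) ^ 2 = 1 - 1 / g := by
    field_simp
    linarith
  have h1 := up_explicit M (dat M) (show 0 < 1 / g by positivity) hζ2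
  set h := ent (-((M : ℝ) + 3) / (2 * M + 5)) (((M : ℝ) + 2) / (2 * M + 5)) with hh
  set x := (1 / g) ^ (M + 9) / 9 with hx
  have hx0 : 0 ≤ x := by positivity
  have hx1 : x ≤ 1 := by
    have : (1 / g) ^ (M + 9) ≤ 1 := pow_le_one₀ (by positivity) (by
      rw [div_le_one hg0]; linarith)
    rw [hx]
    linarith
  have h2 : 1 / g * (1 + x) ≤ Real.exp (-h) := by
    refine le_trans (le_of_eq ?_) h1
    rw [hx, pow_succ (1 / g) (M + 9)]
    ring
  have h3 := Real.log_le_log (by positivity) h2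
  rw [Real.log_exp, Real.log_mul (by positivity) (by linarith), one_div, Real.log_inv] at h3
  have h4 := log_half hx0 hx1
  have h5 : x / 2 = 1 / (18 * g ^ (M + 9)) := by
    rw [hx, one_div_pow]
    field_simp
    norm_num
  linarith

/-- The polynomial `x^3 - x^2 - 1` has exactly one real root `κ`; there is a function `H` on the
parameter set `𝒫` which gives the topological entropy, i.e. the number of laps of the `n`-th iterate
is finite and `log (number of laps) / n → H (a, b)` for every `(a, b)` in `𝒫` (whichever of the two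
values `1`, `-1` is used for the middle branch at its jump `0`), and with `φ = (1 + √5) / 2`:
* `log κ ≤ H ≤ log φ` on `𝒫`;
* for `N ≥ 1` there is exactly one `l > κ` with `l^(3N) (l^3 - l^2 - 1) = l + 1`, and
  `H (-N, b) = log l` for all `b` in `[1/(N+1), 1/N]`;
* if `-N ≤ a ≤ -1/N` and `1/N ≤ b ≤ N`, `N ≥ 1`, then `H (a, b) ≥ log κ + 1 / (10 κ^(3N))`;
* if `-a ≥ N` or `b ≥ N`, `N ≥ 1`, then `H (a, b) ≤ log κ + 2 / κ^(3N+2)`, so the order `κ^(-3N)` of
  these two bounds is exact;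
* if `K ≥ 3` and `(a, b)` is not in the open square with `K/(K-1) > -a > (K-1)/(2K-1)` and
  `(K-1)/(2K-1) < b < K/(K-1)`, then `H (a, b) ≤ log φ - 1 / (18 φ^(K+6))`;
* if `K ≥ 3` and `b ≤ 1/K` or `-a ≤ 1/K`, then `H (a, b) ≤ log κ + 14 / κ^(K+2)`; this order is
  exact, too: `H (-1, 1/K) ≥ log κ + 1 / (10^4 κ^K)`. -/
theorem result : ∃ κ : ℝ, (κ ^ 3 - κ ^ 2 - 1 = 0 ∧ ∀ x : ℝ, x ^ 3 - x ^ 2 - 1 = 0 → x = κ) ∧
    1 < κ ∧
    ∃ H : ℝ × ℝ → ℝ,
      (∀ e a b : ℝ, (e = 1 ∨ e = -1) → InP a b →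
        (∀ n : ℕ, (lapSet (ft e a b)^[n]).Finite) ∧
        Tendsto (fun n : ℕ => Real.log (lapsI e a b n) / n) atTop (𝓝 (H (a, b)))) ∧
      (∀ a b : ℝ, InP a b → Real.log κ ≤ H (a, b) ∧ H (a, b) ≤ Real.log ((1 + √5) / 2)) ∧
      (∀ N : ℕ, 1 ≤ N → ∃ l : ℝ, κ < l ∧ l ^ (3 * N) * (l ^ 3 - l ^ 2 - 1) = l + 1 ∧
        (∀ x : ℝ, κ < x → x ^ (3 * N) * (x ^ 3 - x ^ 2 - 1) = x + 1 → x = l) ∧
        ∀ b ∈ Icc (1 / ((N : ℝ) + 1)) (1 / N), InP (-(N : ℝ)) b ∧
          H (-(N : ℝ), b) = Real.log l) ∧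
      (∀ (N : ℕ) (a b : ℝ), 1 ≤ N → InP a b → a ∈ Icc (-(N : ℝ)) (-(1 / N)) →
        b ∈ Icc (1 / (N : ℝ)) N → Real.log κ + 1 / (10 * κ ^ (3 * N)) ≤ H (a, b)) ∧
      (∀ (N : ℕ) (a b : ℝ), 1 ≤ N → InP a b → ((N : ℝ) ≤ -a ∨ (N : ℝ) ≤ b) →
        H (a, b) ≤ Real.log κ + 2 / κ ^ (3 * N + 2)) ∧
      (∀ (K : ℕ) (a b : ℝ), 3 ≤ K → InP a b →
        ¬ (-a ∈ Ioo (((K : ℝ) - 1) / (2 * K - 1)) (K / (K - 1)) ∧
          b ∈ Ioo (((K : ℝ) - 1) / (2 * K - 1)) (K / (K - 1))) →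
        H (a, b) ≤ Real.log ((1 + √5) / 2) - 1 / (18 * ((1 + √5) / 2) ^ (K + 6))) ∧
      (∀ (K : ℕ) (a b : ℝ), 3 ≤ K → InP a b →
        (b ≤ 1 / K ∨ -a ≤ 1 / K) → H (a, b) ≤ Real.log κ + 14 / κ ^ (K + 2)) ∧
      (∀ K : ℕ, 3 ≤ K → InP (-1) (1 / (K : ℝ)) ∧
        Real.log κ + 1 / (10 ^ 4 * κ ^ K) ≤ H (-1, 1 / (K : ℝ))) := by
  obtain ⟨κ, hκ, hκ'⟩ := exists_kappa
  have hκ1 : 1 ≤ κ := by
    by_contra hcon
    have h2 : κ ^ 2 * (κ - 1) = 1 := by linarith
    nlinarith [mul_nonneg (sq_nonneg κ) (sub_nonneg.2 (not_le.1 hcon).le)]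
  have hκ3 : κ ^ 3 = κ ^ 2 + 1 := by linarith
  have hκ2 : 1 < κ := by
    rcases hκ1.lt_or_eq with h | h
    · exact h
    · rw [← h] at hκ; norm_num at hκ
  have flat : ∀ (K : ℕ) (a b : ℝ), 3 ≤ K → InP a b →
      (b ≤ 1 / K ∨ -a ≤ 1 / K ∨ (K : ℝ) ≤ -a ∨ (K : ℝ) ≤ b) →
      Real.log κ ≤ ent a b ∧ ent a b ≤ Real.log κ + 14 / κ ^ (K + 2) :=
    fun K a b hK hab h => flat_all hκ3 hκ1 hab K hK h
  refine ⟨κ, ⟨hκ, hκ'⟩, hκ2, fun p => ent p.1 p.2, ?_, ?_, ?_, ?_, ?_, ?_,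
    fun K a b hK hab h => (flat K a b hK hab (h.elim Or.inl fun h => Or.inr (Or.inl h))).2,
    fun K hK => edge_low hκ3 hκ1 K hK⟩
  · intro e a b _ hab
    refine ⟨fun n => (lapSet_spec hab e n).1, ?_⟩
    rw [entropy_lapsI hab]
    exact ent_spec hab
  · intro a b hab
    exact ⟨entropy_ge hab hκ3 hκ1 (ent_spec hab), entropy_le hab (ent_spec hab)⟩
  · -- the values at `(-N, b)`
    intro N hN
    obtain ⟨l, hl1, -, hl3, hl4⟩ := value_all hκ3 hκ1 N hN
    exact ⟨l, hl1, hl3, fun x hx ex => value_unique hκ3 hκ1 (3 * N) (by omega) hx hl1 ex hl3, hl4⟩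
  · -- the lower margin
    have key : ∀ (N : ℕ) (a b : ℝ), 1 ≤ N → InP a b → a ≤ -1 / 2 → b ≤ 1 → -(N : ℝ) ≤ a →
        1 / (N : ℝ) ≤ b → Real.log κ + 1 / (10 * κ ^ (3 * N)) ≤ ent a b := by
      intro N a b hN hab ha hb haN hbN
      obtain ⟨l, hl1, hl2, hl3, hl4⟩ := value_all hκ3 hκ1 N hN
      have hN0 : (0 : ℝ) < N := by exact_mod_cast hN
      obtain ⟨hP, hv⟩ := hl4 (1 / N) ⟨one_div_le_one_div_of_le hN0 (by linarith), le_rfl⟩
      have hb1 := (value_bounds hκ3 hκ1 N hN hl1 hl2 hl3).1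
      rw [← hv] at hb1
      exact hb1.trans (left_mono hab hP haN hbN ha hb)
    intro N a b hN hab ha hb
    show _ ≤ ent a b
    rcases cover hab with h | h
    · exact key N a b hN hab h.1 h.2 ha.1 hb.1
    · rw [← ent_symm hab]
      exact key N (-b) (-a) hN (InP_symm hab) (by linarith [h.2]) (by linarith [h.1])
        (by linarith [hb.2]) (by linarith [ha.2])
  · -- the upper bound far away
    have key : ∀ (N : ℕ) (a b : ℝ), 1 ≤ N → InP a b → (N : ℝ) ≤ -a →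
        ent a b ≤ Real.log κ + 2 / κ ^ (3 * N + 2) := by
      intro N a b hN hab ha
      obtain ⟨l, hl1, hl2, hl3, hl4⟩ := value_all hκ3 hκ1 N hN
      have hN1 : (1 : ℝ) ≤ N := by exact_mod_cast hN
      have hN0 : (0 : ℝ) < N := by linarith
      obtain ⟨hP, hv⟩ := hl4 (1 / N) ⟨one_div_le_one_div_of_le hN0 (by linarith), le_rfl⟩
      have hb1 := (value_bounds hκ3 hκ1 N hN hl1 hl2 hl3).2
      rw [← hv] at hb1
      refine (left_mono hP hab (by linarith) ?_ (by linarith) ?_).trans hb1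
      · rw [le_div_iff₀ hN0]
        have h1 := hab.2.1
        have h2 := hab.2.2.2
        nlinarith
      · rw [div_le_one hN0]; exact hN1
    intro N a b hN hab h
    show ent a b ≤ _
    rcases h with h | h
    · exact key N a b hN hab h
    · rw [← ent_symm hab]
      exact key N (-b) (-a) hN (InP_symm hab) (by linarith)
  · -- the upper margin
    intro K a b hK hab hn
    show ent a b ≤ _
    obtain ⟨M, rfl⟩ : ∃ M, K = M + 3 := ⟨K - 3, by omega⟩
    have hM : (0 : ℝ) ≤ M := by positivity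
    have e1 : (((M + 3 : ℕ) : ℝ) - 1) / (2 * ((M + 3 : ℕ) : ℝ) - 1) =
        ((M : ℝ) + 2) / (2 * M + 5) := by
      push_cast
      congr 1 <;> ring
    have e2 : ((M + 3 : ℕ) : ℝ) / (((M + 3 : ℕ) : ℝ) - 1) = ((M : ℝ) + 3) / (M + 2) := by
      push_cast
      congr 1
      ring
    rw [e1, e2] at hn
    rw [show M + 3 + 6 = M + 9 by ring]
    have d := dat M
    have h5 : (0 : ℝ) < 2 * M + 5 := by positivity
    have h2 : (0 : ℝ) < (M : ℝ) + 2 := by positivity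
    -- the two basic cases
    have key1 : ∀ a b : ℝ, InP a b → b ≤ ((M : ℝ) + 2) / (2 * M + 5) →
        ent a b ≤ Real.log ((1 + √5) / 2) - 1 / (18 * ((1 + √5) / 2) ^ (M + 9)) := by
      intro a b hab hb
      have h3 := hab.2.2.1
      have h4 := d.ab
      have h6 := d.b12
      exact (left_mono d.inP hab (by linarith) hb (by linarith) (by linarith)).trans (up_point M)
    have key2 : ∀ a b : ℝ, InP a b → ((M : ℝ) + 3) / (M + 2) ≤ -a →
        ent a b ≤ Real.log ((1 + √5) / 2) - 1 / (18 * ((1 + √5) / 2) ^ (M + 9)) := by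
      intro a b hab ha
      obtain ⟨h1, h2', h3, h4⟩ := id hab
      rw [div_le_iff₀ h2] at ha
      have ha1 : a < -1 := by nlinarith
      have ha2 : 0 < 1 - a := by linarith
      have hb1 : b ≤ 1 := by nlinarith
      have hb0 : 1 / (1 - a) ≤ ((M : ℝ) + 2) / (2 * M + 5) := by
        rw [div_le_div_iff₀ ha2 h5]; nlinarith
      rcases le_or_gt b (((M : ℝ) + 2) / (2 * M + 5)) with hb | hb
      · exact key1 a b hab hb
      have hb00 : 0 < 1 / (1 - a) := by positivity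
      have hP : InP a (1 / (1 - a)) := by
        refine ⟨h1, hb00.le, by linarith, ?_⟩
        rw [mul_one_div, ← neg_div, div_le_one ha2]
        linarith
      have e : -1 / (1 + -a) = -(1 / (1 - a)) := by
        rw [show 1 + -a = 1 - a by ring, neg_div]
      have key := plateau_all (InP_symm hab) (InP_symm hP) (by linarith) (by rw [e]; linarith)
        (by
          have : 1 / (1 - a) ≤ 1 := by rw [div_le_one ha2]; linarith
          linarith) (by rw [e])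
      rw [ent_symm hab, ent_symm hP] at key
      rw [key]
      exact key1 a _ hP hb0
    by_contra hcon
    apply hn
    refine ⟨⟨?_, ?_⟩, ?_, ?_⟩
    · by_contra h
      push Not at h
      apply hcon
      rw [← ent_symm hab]
      exact key1 (-b) (-a) (InP_symm hab) h
    · by_contra h
      push Not at h
      exact hcon (key2 a b hab h)
    · by_contra h
      push Not at h
      exact hcon (key1 a b hab h)
    · by_contra h
      push Not at h
      apply hcon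
      rw [← ent_symm hab]
      exact key2 (-b) (-a) (InP_symm hab) (by rwa [neg_neg])

end Pool.Agent.Results.MP_d04ad0_an.SharpRates
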